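import Pool.Agent.Helper99.SZ.NUM3
import Pool.Agent.Helper99.SZ.Stmts4

/-!
# The split case
-/

set_option autoImplicit false

namespace Pool.Helper99.SZ

open NumberField

theorem rmn_log (n : ℕ) (hn : n ≠ 0) : Real.log n =
    ∑ p ∈ n.primeFactors, (n.factorization p : ℝ) * Real.log p := by
  conv_lhs => rw [← Nat.prod_factorization_pow_eq_self hn]
  rw [Finsupp.prod, Nat.support_factorization, Nat.cast_prod, Real.log_prod]
  · refine Finset.sum_congr rfl fun p _ => ?_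
    rw [Nat.cast_pow, Real.log_pow]
  · intro p hp
    have := (Nat.prime_of_mem_primeFactors hp).pos
    positivity

theorem rmn_split (n : ℤ) (hn : n ≠ 0) (s : Finset ℕ) : ∃ x0 : ℤ, x0 ≠ 0 ∧
    n = x0 * ∏ p ∈ s, (p : ℤ) ^ (n.natAbs.factorization p) ∧
    Real.log |(x0 : ℝ)| = ∑ p ∈ n.natAbs.primeFactors \ s,
      (n.natAbs.factorization p : ℝ) * Real.log p := by
  obtain ⟨N, hN⟩ : ∃ N, N = n.natAbs := ⟨_, rfl⟩
  have hN0 : N ≠ 0 := by rw [hN]; exact Int.natAbs_ne_zero.2 hn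
  have h1 : ∏ p ∈ N.primeFactors, p ^ (N.factorization p) = N := by
    conv_rhs => rw [← Nat.prod_factorization_pow_eq_self hN0]
    rw [Finsupp.prod, Nat.support_factorization]
  have h2 : ∏ p ∈ s, p ^ (N.factorization p) = ∏ p ∈ N.primeFactors ∩ s, p ^ (N.factorization p) := by
    symm
    apply Finset.prod_subset Finset.inter_subset_right
    intro p hp hp'
    have : p ∉ N.primeFactors := fun h => hp' (Finset.mem_inter.2 ⟨h, hp⟩)
    rw [← Nat.support_factorization, Finsupp.notMem_support_iff] at this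
    rw [this, pow_zero]
  have h3 : (∏ p ∈ N.primeFactors \ s, p ^ (N.factorization p)) *
      ∏ p ∈ s, p ^ (N.factorization p) = N := by
    rw [h2, mul_comm, ← Finset.prod_union]
    · rw [Finset.union_comm, Finset.sdiff_union_inter, h1]
    · rw [Finset.disjoint_left]
      intro p hp hp'
      exact (Finset.mem_sdiff.1 hp').2 (Finset.mem_inter.1 hp).2
  have hpos : 0 < ∏ p ∈ N.primeFactors \ s, p ^ (N.factorization p) := by
    apply Finset.prod_pos
    intro p hp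
    have := (Nat.prime_of_mem_primeFactors (Finset.mem_sdiff.1 hp).1).pos
    positivity
  rw [← hN]
  refine ⟨n.sign * (∏ p ∈ N.primeFactors \ s, p ^ (N.factorization p) : ℕ), ?_, ?_, ?_⟩
  · refine mul_ne_zero (by simpa using hn) ?_
    exact_mod_cast hpos.ne'
  · have h4 : (∏ p ∈ s, (p : ℤ) ^ (N.factorization p)) =
        ((∏ p ∈ s, p ^ (N.factorization p) : ℕ) : ℤ) := by push_cast; rfl
    rw [h4, mul_assoc, ← Nat.cast_mul, h3, hN]
    exact (Int.sign_mul_natAbs n).symm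
  · have h5 : |(n.sign : ℝ)| = 1 := by
      rcases lt_or_gt_of_ne hn with h | h
      · rw [Int.sign_eq_neg_one_of_neg h]; simp
      · rw [Int.sign_eq_one_of_pos h]; simp
    rw [Int.cast_mul, abs_mul, h5, one_mul, Int.cast_natCast, Nat.abs_cast, Nat.cast_prod,
      Real.log_prod]
    · refine Finset.sum_congr rfl fun p _ => ?_
      rw [Nat.cast_pow, Real.log_pow]
    · intro p hp
      have := (Nat.prime_of_mem_primeFactors (Finset.mem_sdiff.1 hp).1).pos
      positivity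

/-- the final estimate -/
theorem rmn_num (δ C1 S R B0 : ℝ) (hδ : 0 < δ) (hδ2 : δ ≤ 1 / 2) (hC1 : 1 ≤ C1) (hS : 1 ≤ S)
    (hR : 1 ≤ R) (hB : 1 ≤ B0) (hBR : B0 ≤ Real.exp R)
    (h : S ≤ C1 * B0 * Real.exp (2 * δ * R) * Real.exp (δ * Real.log S)) :
    S ≤ C1 ^ 2 * B0 * Real.exp (6 * δ * R) := by
  have hL := Real.log_le_log (by linarith) h
  rw [Real.log_mul (by positivity) (Real.exp_pos _).ne', Real.log_mul (by positivity)
    (Real.exp_pos _).ne', Real.log_mul (by positivity) (by positivity), Real.log_exp,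
    Real.log_exp] at hL
  have hb0 : 0 ≤ Real.log B0 := Real.log_nonneg hB
  have hbR : Real.log B0 ≤ R := by
    have := Real.log_le_log (by linarith) hBR
    rwa [Real.log_exp] at this
  have hc0 : 0 ≤ Real.log C1 := Real.log_nonneg hC1
  have hL0 : 0 ≤ Real.log S := Real.log_nonneg hS
  obtain ⟨L, hLd⟩ : ∃ L, L = Real.log S := ⟨_, rfl⟩
  obtain ⟨c, hcd⟩ : ∃ c, c = Real.log C1 := ⟨_, rfl⟩
  obtain ⟨β, hβd⟩ : ∃ β, β = Real.log B0 := ⟨_, rfl⟩
  rw [← hLd, ← hcd, ← hβd] at hL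
  rw [← hLd] at hL0
  rw [← hcd] at hc0
  rw [← hβd] at hb0 hbR
  have h1 : L * (1 - δ) ≤ c + β + 2 * δ * R := by linarith
  have h2 : L ≤ (c + β + 2 * δ * R) * (1 + 2 * δ) := by
    have h3 : 1 ≤ (1 - δ) * (1 + 2 * δ) := by nlinarith
    calc L ≤ L * ((1 - δ) * (1 + 2 * δ)) := le_mul_of_one_le_right hL0 h3
      _ = L * (1 - δ) * (1 + 2 * δ) := by ring
      _ ≤ _ := mul_le_mul_of_nonneg_right h1 (by linarith)
  have h3 : (c + β + 2 * δ * R) * (1 + 2 * δ) ≤ 2 * c + β + 6 * δ * R := by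
    have e1 : c * (2 * δ) ≤ c := by nlinarith
    have e2 : β * (2 * δ) ≤ R * (2 * δ) := mul_le_mul_of_nonneg_right hbR (by linarith)
    have e3 : 2 * δ * R * (2 * δ) ≤ 2 * δ * R := by
      have : 0 ≤ 2 * δ * R := by positivity
      nlinarith
    linarith
  have h4 : L ≤ 2 * c + β + 6 * δ * R := h2.trans h3
  calc S = Real.exp L := by rw [hLd, Real.exp_log (by linarith)]
    _ ≤ Real.exp (2 * c + β + 6 * δ * R) := Real.exp_le_exp.2 h4
    _ = C1 ^ 2 * B0 * Real.exp (6 * δ * R) := by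
      rw [Real.exp_add, Real.exp_add, hβd, Real.exp_log (by linarith), hcd, two_mul, Real.exp_add,
        Real.exp_log (by linarith)]
      ring

theorem rmn_numdiv (q T : ℕ) (f β' : ℤ) (hβ' : β' ≠ 0) (h1 : ((q : ℤ) ^ T) ∣ f)
    (h2 : IsCoprime ((q : ℤ) ^ T) β') : ((q : ℤ) ^ T) ∣ ((f : ℚ) / (β' : ℚ)).num := by
  obtain ⟨r, hr⟩ : ∃ r : ℚ, r = (f : ℚ) / (β' : ℚ) := ⟨_, rfl⟩
  rw [← hr]
  have h3 : (r.num : ℚ) / (r.den : ℚ) = (f : ℚ) / (β' : ℚ) := by rw [Rat.num_div_den, hr]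
  have hd : (r.den : ℚ) ≠ 0 := by exact_mod_cast r.den_nz
  have hb : (β' : ℚ) ≠ 0 := by exact_mod_cast hβ'
  rw [div_eq_div_iff hd hb] at h3
  have h4 : r.num * β' = f * (r.den : ℤ) := by exact_mod_cast h3
  have h5 : ((q : ℤ) ^ T) ∣ r.num * β' := by
    rw [h4]
    exact Dvd.dvd.mul_right h1 _
  exact h2.dvd_of_dvd_mul_right h5

theorem rmn_core (hRTP : ST_RTP) (hRTA : ST_RTA) : ∀ δ : ℝ, 0 < δ → ∃ C : ℝ, 1 ≤ C ∧
    ∀ β β' b d : ℤ, b = β * β' → d = (β - β') ^ 2 → β ≠ 0 → β' ≠ 0 → β ≠ β' →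
    |(β : ℝ)| ≤ |(β' : ℝ)| → ∀ R B : ℝ, 1 ≤ B →
    (∀ q ∈ d.natAbs.primeFactors, ¬ (q : ℤ) ∣ b → (q : ℝ) ≤ B) →
    1 + ∑ p ∈ (b * d).natAbs.primeFactors, (if (p : ℤ) ∣ b ∧ (p : ℤ) ∣ d then
      ((b.natAbs.factorization p : ℝ) + (d.natAbs.factorization p : ℝ)) else 1) *
        Real.log p ≤ R →
    Real.log |(β' : ℝ)| ≤ C * B * Real.exp (δ * R) := by
  intro δ hδ
  obtain ⟨δ', hδ'⟩ : ∃ δ' : ℝ, δ' = min (δ / 6) (1 / 2) := ⟨_, rfl⟩
  have hδ0 : 0 < δ' := by rw [hδ']; exact lt_min (by linarith) (by norm_num)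
  have hδ2 : δ' ≤ 1 / 2 := by rw [hδ']; exact min_le_right _ _
  have hδ6 : 6 * δ' ≤ δ := by
    have : δ' ≤ δ / 6 := by rw [hδ']; exact min_le_left _ _
    linarith
  obtain ⟨CP, hCP1, hCP⟩ := hRTP δ' 16 hδ0 (by norm_num)
  obtain ⟨CA, hCA1, hCA⟩ := hRTA δ' 16 hδ0 (by norm_num)
  obtain ⟨C2, hC2⟩ : ∃ C2 : ℝ, C2 = ((2 : ℕ).factorial : ℝ) / δ' ^ 2 := ⟨_, rfl⟩
  have hC20 : 0 < C2 := by rw [hC2]; positivity
  obtain ⟨C1, hC1⟩ : ∃ C1 : ℝ, C1 = 1 + 16 * (CP + CA) * C2 := ⟨_, rfl⟩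
  have hC11 : 1 ≤ C1 := by
    rw [hC1]
    have : 0 ≤ 16 * (CP + CA) * C2 := by positivity
    linarith
  obtain ⟨C3, hC3⟩ : ∃ C3 : ℝ, C3 = ((1 : ℕ).factorial : ℝ) / δ ^ 1 := ⟨_, rfl⟩
  have hC30 : 0 < C3 := by rw [hC3]; positivity
  refine ⟨C1 ^ 2 + 4 * C3 + 1, by nlinarith [sq_nonneg C1], ?_⟩
  intro β β' b d hb hd hβ0 hβ'0 hne hle R B hB hqB hRs
  -- basic facts
  have hb0 : b ≠ 0 := by rw [hb]; exact mul_ne_zero hβ0 hβ'0
  obtain ⟨f, hf⟩ : ∃ f, f = β - β' := ⟨_, rfl⟩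
  have hf0 : f ≠ 0 := by rw [hf]; exact sub_ne_zero.2 hne
  rw [← hf] at hd
  have hd0 : d ≠ 0 := by rw [hd]; exact pow_ne_zero 2 hf0
  have hbd0 : b * d ≠ 0 := mul_ne_zero hb0 hd0
  obtain ⟨w, hw⟩ : ∃ w : ℕ → ℝ, w = fun p : ℕ => (if (p : ℤ) ∣ b ∧ (p : ℤ) ∣ d then
      ((b.natAbs.factorization p : ℝ) + (d.natAbs.factorization p : ℝ)) else 1) *
        Real.log p := ⟨_, rfl⟩
  have hRs' : 1 + ∑ p ∈ (b * d).natAbs.primeFactors, w p ≤ R := by rw [hw]; exact hRs
  have hw0 : ∀ p, 0 ≤ w p := by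
    intro p
    rw [hw]
    have h1 : (0 : ℝ) ≤ Real.log p := Real.log_natCast_nonneg p
    refine mul_nonneg ?_ h1
    split_ifs
    · positivity
    · norm_num
  have hPF : ∀ p : ℕ, p ∈ (b * d).natAbs.primeFactors ↔ p.Prime ∧ ((p : ℤ) ∣ b ∨ (p : ℤ) ∣ d) := by
    intro p
    rw [Nat.mem_primeFactors_of_ne_zero (Int.natAbs_ne_zero.2 hbd0)]
    refine and_congr_right fun hp => ?_
    rw [← Int.natCast_dvd, (Nat.prime_iff_prime_int.1 hp).dvd_mul]
  have hsub : ∀ (s : Finset ℕ) (F : ℕ → ℝ), (∀ p ∈ s, p.Prime ∧ ((p : ℤ) ∣ b ∨ (p : ℤ) ∣ d)) →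
      (∀ p ∈ s, F p ≤ w p) → ∑ p ∈ s, F p ≤ R - 1 := by
    intro s F hs hF
    have h1 : ∑ p ∈ s, F p ≤ ∑ p ∈ s, w p := Finset.sum_le_sum hF
    have h2 : ∑ p ∈ s, w p ≤ ∑ p ∈ (b * d).natAbs.primeFactors, w p :=
      Finset.sum_le_sum_of_subset_of_nonneg (fun p hp => (hPF p).2 (hs p hp))
        (fun p _ _ => hw0 p)
    linarith
  have hR1 : 1 ≤ R := by
    have := hsub ∅ (fun _ => 0) (by simp) (by simp)
    simp at this
    linarith
  have hβb : ∀ p : ℕ, (p : ℤ) ∣ β → (p : ℤ) ∣ b := fun p h => by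
    rw [hb]; exact Dvd.dvd.mul_right h _
  have hβ'b : ∀ p : ℕ, (p : ℤ) ∣ β' → (p : ℤ) ∣ b := fun p h => by
    rw [hb]; exact Dvd.dvd.mul_left h _
  have hfd : ∀ p : ℕ, (p : ℤ) ∣ f → (p : ℤ) ∣ d := fun p h => by
    rw [hd, sq]; exact Dvd.dvd.mul_right h _
  have hvb : ∀ p, b.natAbs.factorization p = β.natAbs.factorization p +
      β'.natAbs.factorization p := by
    intro p
    rw [hb, Int.natAbs_mul, Nat.factorization_mul (Int.natAbs_ne_zero.2 hβ0)
      (Int.natAbs_ne_zero.2 hβ'0)]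
    rfl
  have hvd : ∀ p, d.natAbs.factorization p = 2 * f.natAbs.factorization p := by
    intro p
    rw [hd, Int.natAbs_pow, Nat.factorization_pow]
    simp
  have habs : ∀ z : ℤ, |(z : ℝ)| = ((z.natAbs : ℕ) : ℝ) := by
    intro z
    rw [Nat.cast_natAbs, Int.cast_abs]
  -- the size
  obtain ⟨S0, hS0⟩ : ∃ S0, S0 = Real.log |(β' : ℝ)| := ⟨_, rfl⟩
  have hβ'1 : 1 ≤ |(β' : ℝ)| := by exact_mod_cast Int.one_le_abs hβ'0
  have hβ1 : 1 ≤ |(β : ℝ)| := by exact_mod_cast Int.one_le_abs hβ0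
  have hS00 : 0 ≤ S0 := by rw [hS0]; exact Real.log_nonneg hβ'1
  have hlogβ : Real.log |(β : ℝ)| ≤ S0 := by
    rw [hS0]; exact Real.log_le_log (by linarith) hle
  have hlogb : Real.log |(b : ℝ)| ≤ 2 * S0 := by
    rw [hb, Int.cast_mul, abs_mul, Real.log_mul (by linarith) (by linarith), ← hS0]
    linarith
  have hexp1 : 1 ≤ Real.exp (δ * R) := Real.one_le_exp (by positivity)
  have hBe : 1 ≤ B * Real.exp (δ * R) := by nlinarith
  have hRe : R ≤ C3 * Real.exp (δ * R) := by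
    have := n3_pow 1 δ R hδ (by linarith)
    rw [pow_one, ← hC3] at this
    exact this
  -- easy cases
  have heasy : S0 ≤ 4 * R + 1 → S0 ≤ (C1 ^ 2 + 4 * C3 + 1) * B * Real.exp (δ * R) := by
    intro h
    have h1 : C3 * Real.exp (δ * R) ≤ C3 * (B * Real.exp (δ * R)) := by
      apply mul_le_mul_of_nonneg_left _ hC30.le
      nlinarith [Real.exp_pos (δ * R)]
    have h2 : 0 ≤ C1 ^ 2 * (B * Real.exp (δ * R)) := by positivity
    calc S0 ≤ 4 * R + 1 := h
      _ ≤ 4 * (C3 * (B * Real.exp (δ * R))) + B * Real.exp (δ * R) := by linarith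
      _ ≤ _ := by linarith
  rw [← hS0]
  by_cases hS4 : S0 ≤ 4 * R + 1
  · exact heasy hS4
  have hS4' : 4 * R + 1 < S0 := not_le.1 hS4
  -- roots of unity
  obtain ⟨g0, hg0⟩ : ∃ g0 : ℚ, g0 = (β : ℚ) / (β' : ℚ) := ⟨_, rfl⟩
  have hβ'Q : (β' : ℚ) ≠ 0 := by exact_mod_cast hβ'0
  have hβQ : (β : ℚ) ≠ 0 := by exact_mod_cast hβ0
  by_cases htor : ∃ k : ℤ, k ≠ 0 ∧ g0 ^ k = 1
  · exfalso
    obtain ⟨k, hk0, hk⟩ := htor
    have h1 : |g0| = 1 := by
      have h2 : |g0| ^ k = 1 := by rw [← abs_zpow, hk, abs_one]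
      by_contra h3
      exact hk0 ((zpow_eq_one_iff_right₀ (abs_nonneg g0) h3).1 h2)
    have h2 : |(β : ℚ)| = |(β' : ℚ)| := by
      rw [hg0, abs_div, div_eq_one_iff_eq (abs_ne_zero.2 hβ'Q)] at h1
      exact h1
    have h3 : |β| = |β'| := by exact_mod_cast h2
    have h4 : β = -β' := by
      rcases abs_eq_abs.1 h3 with h | h
      · exact absurd h hne
      · exact h
    have h5 : Real.log |(β' : ℝ)| = ∑ p ∈ β'.natAbs.primeFactors,
        (β'.natAbs.factorization p : ℝ) * Real.log p := by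
      rw [habs]
      exact rmn_log _ (Int.natAbs_ne_zero.2 hβ'0)
    have h6 : ∑ p ∈ β'.natAbs.primeFactors,
        (β'.natAbs.factorization p : ℝ) * Real.log p ≤ R - 1 := by
      have hdvd : ∀ p ∈ β'.natAbs.primeFactors, p.Prime ∧ (p : ℤ) ∣ b ∧ (p : ℤ) ∣ d := by
        intro p hp
        have hp1 := Nat.prime_of_mem_primeFactors hp
        have hp2 : (p : ℤ) ∣ β' := Int.natCast_dvd.2 (Nat.dvd_of_mem_primeFactors hp)
        refine ⟨hp1, hβ'b p hp2, hfd p ?_⟩
        rw [hf, h4]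
        exact Dvd.dvd.sub (Dvd.dvd.neg_right hp2) hp2
      refine hsub _ _ (fun p hp => ⟨(hdvd p hp).1, Or.inl (hdvd p hp).2.1⟩) ?_
      intro p hp
      rw [hw]
      simp only
      rw [if_pos (hdvd p hp).2]
      refine mul_le_mul_of_nonneg_right ?_ (Real.log_natCast_nonneg p)
      have := hvb p
      have h7 : β'.natAbs.factorization p ≤ b.natAbs.factorization p := by omega
      have h8 : (β'.natAbs.factorization p : ℝ) ≤ b.natAbs.factorization p := by exact_mod_cast h7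
      have h9 : (0 : ℝ) ≤ d.natAbs.factorization p := Nat.cast_nonneg _
      linarith
    rw [← hS0] at h5
    linarith
  have htor' : ∀ k : ℤ, k ≠ 0 → g0 ^ k ≠ 1 := fun k hk h => htor ⟨k, hk, h⟩
  -- the primes
  obtain ⟨s, hs⟩ : ∃ s : Finset ℕ, s = b.natAbs.primeFactors.filter (fun p : ℕ => ¬ (p : ℤ) ∣ d) :=
    ⟨_, rfl⟩
  have hsm : ∀ p, p ∈ s ↔ p.Prime ∧ (p : ℤ) ∣ b ∧ ¬ (p : ℤ) ∣ d := by
    intro p
    rw [hs, Finset.mem_filter, Nat.mem_primeFactors_of_ne_zero (Int.natAbs_ne_zero.2 hb0),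
      ← Int.natCast_dvd, and_assoc]
  obtain ⟨x0, hx0, hβx, hlx⟩ := rmn_split β hβ0 s
  obtain ⟨y0, hy0, hβy, hly⟩ := rmn_split β' hβ'0 s
  have hxy : ∀ γ : ℤ, γ ≠ 0 → (∀ p : ℕ, (p : ℤ) ∣ γ → (p : ℤ) ∣ b) →
      (∀ p, γ.natAbs.factorization p ≤ b.natAbs.factorization p) →
      ∑ p ∈ γ.natAbs.primeFactors \ s, (γ.natAbs.factorization p : ℝ) * Real.log p ≤ R := by
    intro γ hγ hγb hγv
    have hdvd : ∀ p ∈ γ.natAbs.primeFactors \ s, p.Prime ∧ (p : ℤ) ∣ b ∧ (p : ℤ) ∣ d := by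
      intro p hp
      rw [Finset.mem_sdiff] at hp
      have hp1 := Nat.prime_of_mem_primeFactors hp.1
      have hp2 : (p : ℤ) ∣ γ := Int.natCast_dvd.2 (Nat.dvd_of_mem_primeFactors hp.1)
      refine ⟨hp1, hγb p hp2, ?_⟩
      by_contra h'
      exact hp.2 ((hsm p).2 ⟨hp1, hγb p hp2, h'⟩)
    have := hsub (γ.natAbs.primeFactors \ s)
      (fun p => (γ.natAbs.factorization p : ℝ) * Real.log p)
      (fun p hp => ⟨(hdvd p hp).1, Or.inl (hdvd p hp).2.1⟩) (by
        intro p hp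
        rw [hw]
        simp only
        rw [if_pos (hdvd p hp).2]
        refine mul_le_mul_of_nonneg_right ?_ (Real.log_natCast_nonneg p)
        have h8 : (γ.natAbs.factorization p : ℝ) ≤ b.natAbs.factorization p := by
          exact_mod_cast hγv p
        have h9 : (0 : ℝ) ≤ d.natAbs.factorization p := Nat.cast_nonneg _
        linarith)
    linarith
  have hlx' : Real.log |(x0 : ℝ)| ≤ R := by
    rw [hlx]
    exact hxy β hβ0 hβb (fun p => by have := hvb p; omega)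
  have hly' : Real.log |(y0 : ℝ)| ≤ R := by
    rw [hly]
    exact hxy β' hβ'0 hβ'b (fun p => by have := hvb p; omega)
  -- enumeration
  obtain ⟨m, hm⟩ : ∃ m, m = s.card := ⟨_, rfl⟩
  obtain ⟨p, hpinj, hpmem, hpsum, hpprod⟩ : ∃ p : Fin m → ℕ, Function.Injective p ∧
      (∀ j, p j ∈ s) ∧ (∀ F : ℕ → ℝ, ∑ j, F (p j) = ∑ q ∈ s, F q) ∧
      (∀ F : ℕ → ℚ, ∏ j, F (p j) = ∏ q ∈ s, F q) := by
    subst hm
    refine ⟨fun j => ((s.equivFin.symm j : s) : ℕ), ?_, ?_, ?_, ?_⟩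
    · intro i j hij
      exact s.equivFin.symm.injective (Subtype.ext hij)
    · intro j
      exact (s.equivFin.symm j).2
    · intro F
      rw [← Finset.sum_coe_sort s F]
      exact Equiv.sum_comp s.equivFin.symm (fun q : s => F q)
    · intro F
      rw [← Finset.prod_coe_sort s F]
      exact Equiv.prod_comp s.equivFin.symm (fun q : s => F q)
  have hpp : ∀ j, (p j).Prime := fun j => ((hsm _).1 (hpmem j)).1
  obtain ⟨e, he⟩ : ∃ e : Fin m → ℤ, e = fun j => (β.natAbs.factorization (p j) : ℤ) -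
      (β'.natAbs.factorization (p j) : ℤ) := ⟨_, rfl⟩
  have hg0e : g0 = (x0 : ℚ) / (y0 : ℚ) * ∏ j, (p j : ℚ) ^ (e j) := by
    have h1 : ∏ j, (p j : ℚ) ^ (e j) = (∏ q ∈ s, (q : ℚ) ^ (β.natAbs.factorization q)) /
        ∏ q ∈ s, (q : ℚ) ^ (β'.natAbs.factorization q) := by
      rw [← Finset.prod_div_distrib, ← hpprod (fun q => (q : ℚ) ^ (β.natAbs.factorization q) /
        (q : ℚ) ^ (β'.natAbs.factorization q))]
      refine Finset.prod_congr rfl fun j _ => ?_
      have hpj : (p j : ℚ) ≠ 0 := by exact_mod_cast (hpp j).ne_zero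
      rw [he]
      simp only
      rw [zpow_sub₀ hpj, zpow_natCast, zpow_natCast]
    have h2 : (β : ℚ) = x0 * ∏ q ∈ s, (q : ℚ) ^ (β.natAbs.factorization q) := by
      have := congrArg (fun z : ℤ => (z : ℚ)) hβx
      rw [Int.cast_mul, Int.cast_prod] at this
      simp only [Int.cast_pow, Int.cast_natCast] at this
      exact this
    have h3 : (β' : ℚ) = y0 * ∏ q ∈ s, (q : ℚ) ^ (β'.natAbs.factorization q) := by
      have := congrArg (fun z : ℤ => (z : ℚ)) hβy
      rw [Int.cast_mul, Int.cast_prod] at this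
      simp only [Int.cast_pow, Int.cast_natCast] at this
      exact this
    rw [hg0, h1]
    conv_lhs => rw [h2, h3]
    rw [mul_div_mul_comm]
  have hplog : ∑ j, Real.log (p j) ≤ R := by
    rw [hpsum (fun q => Real.log q)]
    have := hsub s (fun q => Real.log q) (fun q hq => ⟨((hsm q).1 hq).1,
      Or.inl ((hsm q).1 hq).2.1⟩) (by
        intro q hq
        rw [hw]
        simp only
        rw [if_neg (fun h => ((hsm q).1 hq).2.2 h.2), one_mul])
    linarith
  -- the parameters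
  obtain ⟨S, hS⟩ : ∃ S, S = 2 * S0 := ⟨_, rfl⟩
  have hS1 : 1 ≤ S := by linarith
  have hlS0 : 0 ≤ Real.log S := Real.log_nonneg hS1
  obtain ⟨R', hR'⟩ : ∃ R', R' = R + Real.log S := ⟨_, rfl⟩
  have hRR' : R ≤ R' := by linarith
  have hR'1 : 1 ≤ R' := by linarith
  have heS : ∀ j, |((e j : ℤ) : ℝ)| * Real.log (p j) ≤ S := by
    intro j
    have hpj := hpmem j
    have h1 : Real.log |(b : ℝ)| = ∑ q ∈ b.natAbs.primeFactors,
        (b.natAbs.factorization q : ℝ) * Real.log q := by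
      rw [habs]
      exact rmn_log _ (Int.natAbs_ne_zero.2 hb0)
    have h2 : (b.natAbs.factorization (p j) : ℝ) * Real.log (p j) ≤
        ∑ q ∈ b.natAbs.primeFactors, (b.natAbs.factorization q : ℝ) * Real.log q := by
      apply Finset.single_le_sum (f := fun q : ℕ => (b.natAbs.factorization q : ℝ) * Real.log q)
      · intro q _
        exact mul_nonneg (Nat.cast_nonneg _) (Real.log_natCast_nonneg q)
      · rw [hs] at hpj
        exact (Finset.mem_filter.1 hpj).1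
    have h3 : |((e j : ℤ) : ℝ)| ≤ (b.natAbs.factorization (p j) : ℝ) := by
      have h4 : |e j| ≤ (b.natAbs.factorization (p j) : ℤ) := by
        rw [hvb, he]
        simp only
        rw [abs_le]
        push_cast
        constructor <;> omega
      exact_mod_cast h4
    have h5 := mul_le_mul_of_nonneg_right h3 (Real.log_natCast_nonneg (p j))
    linarith
  have hlogR : Real.log R ≤ 16 * R' := by
    have := Real.log_le_sub_one_of_pos (show 0 < R by linarith)
    linarith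
  have hexpR' : Real.exp (δ' * R') = Real.exp (δ' * R) * Real.exp (δ' * Real.log S) := by
    rw [← Real.exp_add, hR']; congr 1; ring
  obtain ⟨B0, hB0⟩ : ∃ B0, B0 = min B (Real.exp R) := ⟨_, rfl⟩
  have hB01 : 1 ≤ B0 := by
    rw [hB0]; exact le_min hB (Real.one_le_exp (by linarith))
  have hB0B : B0 ≤ B := by rw [hB0]; exact min_le_left _ _
  have hB0R : B0 ≤ Real.exp R := by rw [hB0]; exact min_le_right _ _
  have hR2 : R ^ 2 ≤ C2 * Real.exp (δ' * R) := by
    have := n3_pow 2 δ' R hδ0 (by linarith)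
    rw [← hC2] at this
    exact this
  -- it suffices to prove this
  have hfin : S ≤ 16 * (CP + CA) * R ^ 2 * B0 * Real.exp (δ' * R') →
      S0 ≤ (C1 ^ 2 + 4 * C3 + 1) * B * Real.exp (δ * R) := by
    intro h
    have h1 : S ≤ C1 * B0 * Real.exp (2 * δ' * R) * Real.exp (δ' * Real.log S) := by
      have e2 : Real.exp (2 * δ' * R) = Real.exp (δ' * R) * Real.exp (δ' * R) := by
        rw [← Real.exp_add]; congr 1; ring
      have hE1 := Real.exp_pos (δ' * R)
      have hE2 := Real.exp_pos (δ' * Real.log S)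
      calc S ≤ 16 * (CP + CA) * R ^ 2 * B0 * Real.exp (δ' * R') := h
        _ = 16 * (CP + CA) * B0 * Real.exp (δ' * R) * Real.exp (δ' * Real.log S) * R ^ 2 := by
            rw [hexpR']; ring
        _ ≤ 16 * (CP + CA) * B0 * Real.exp (δ' * R) * Real.exp (δ' * Real.log S) *
            (C2 * Real.exp (δ' * R)) := mul_le_mul_of_nonneg_left hR2 (by positivity)
        _ = 16 * (CP + CA) * C2 * (B0 * Real.exp (2 * δ' * R) * Real.exp (δ' * Real.log S)) := by
            rw [e2]; ring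
        _ ≤ C1 * (B0 * Real.exp (2 * δ' * R) * Real.exp (δ' * Real.log S)) := by
            apply mul_le_mul_of_nonneg_right _ (by positivity)
            rw [hC1]; linarith
        _ = _ := by ring
    have h2 := rmn_num δ' C1 S R B0 hδ0 hδ2 hC11 hS1 hR1 hB01 hB0R h1
    have h3 : Real.exp (6 * δ' * R) ≤ Real.exp (δ * R) :=
      Real.exp_le_exp.2 (mul_le_mul_of_nonneg_right hδ6 (by linarith))
    have h4 : C1 ^ 2 * B0 * Real.exp (6 * δ' * R) ≤ C1 ^ 2 * B * Real.exp (δ * R) :=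
      mul_le_mul (mul_le_mul_of_nonneg_left hB0B (by positivity)) h3 (Real.exp_pos _).le
        (by positivity)
    have h5 : 0 ≤ (4 * C3 + 1) * B * Real.exp (δ * R) := by positivity
    calc S0 ≤ S := by linarith
      _ ≤ C1 ^ 2 * B * Real.exp (δ * R) := h2.trans h4
      _ ≤ _ := by linarith
  have hfR : (f : ℝ) ≠ 0 := by exact_mod_cast hf0
  have hf1 : 1 ≤ |(f : ℝ)| := by exact_mod_cast Int.one_le_abs hf0
  by_cases hcase : Real.log |(f : ℝ)| ≤ S0 / 2
  · -- archimedean case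
    have h1 : |(g0 : ℝ) - 1| ≤ Real.exp (-(S0 / 2)) := by
      have hβ'R : (β' : ℝ) ≠ 0 := by exact_mod_cast hβ'0
      have e1 : (g0 : ℝ) - 1 = (f : ℝ) / (β' : ℝ) := by
        rw [hg0, hf]
        push_cast
        field_simp
      rw [e1, abs_div, div_le_iff₀ (by linarith)]
      have e2 : |(β' : ℝ)| = Real.exp S0 := by rw [hS0, Real.exp_log (by linarith)]
      rw [e2, ← Real.exp_add]
      calc |(f : ℝ)| = Real.exp (Real.log |(f : ℝ)|) := by rw [Real.exp_log (by linarith)]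
        _ ≤ Real.exp (-(S0 / 2) + S0) := Real.exp_le_exp.2 (by linarith)
    have h2 := hCA m p hpinj hpp e x0 y0 hx0 hy0 g0 hg0e htor' R' S R (S0 / 2) hR'1
      (by linarith) hR1 hlx' hly' hlogR hS1 (by linarith) heS (by linarith) h1 (by
        have : 0 < S0 := by linarith
        rw [hS]
        nlinarith)
    apply hfin
    have h3 : R ≤ R ^ 2 := by nlinarith
    have h4 : CA * R * Real.exp (δ' * R') ≤ (CP + CA) * R ^ 2 * B0 * Real.exp (δ' * R') := by
      apply mul_le_mul_of_nonneg_right _ (Real.exp_pos _).le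
      calc CA * R ≤ (CP + CA) * R ^ 2 := mul_le_mul (by linarith) h3 (by linarith) (by linarith)
        _ ≤ (CP + CA) * R ^ 2 * B0 := le_mul_of_one_le_right (by positivity) hB01
    have h5 : 0 ≤ (CP + CA) * R ^ 2 * B0 * Real.exp (δ' * R') := by positivity
    linarith
  · -- p-adic case
    have hcase' : S0 / 2 < Real.log |(f : ℝ)| := not_le.1 hcase
    have h1 : Real.log |(f : ℝ)| = ∑ q ∈ f.natAbs.primeFactors,
        (f.natAbs.factorization q : ℝ) * Real.log q := by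
      rw [habs]
      exact rmn_log _ (Int.natAbs_ne_zero.2 hf0)
    have hfp : ∀ q ∈ f.natAbs.primeFactors, q.Prime ∧ (q : ℤ) ∣ f := fun q hq =>
      ⟨Nat.prime_of_mem_primeFactors hq, Int.natCast_dvd.2 (Nat.dvd_of_mem_primeFactors hq)⟩
    rw [← Finset.sum_filter_add_sum_filter_not f.natAbs.primeFactors (fun q : ℕ => (q : ℤ) ∣ b)] at h1
    have h2 : ∑ q ∈ f.natAbs.primeFactors.filter (fun q : ℕ => (q : ℤ) ∣ b),
        (f.natAbs.factorization q : ℝ) * Real.log q ≤ R - 1 := by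
      refine hsub _ _ (fun q hq => ?_) (fun q hq => ?_)
      · rw [Finset.mem_filter] at hq
        exact ⟨(hfp q hq.1).1, Or.inl hq.2⟩
      · rw [Finset.mem_filter] at hq
        rw [hw]
        simp only
        rw [if_pos ⟨hq.2, hfd q (hfp q hq.1).2⟩]
        refine mul_le_mul_of_nonneg_right ?_ (Real.log_natCast_nonneg q)
        rw [hvd q]
        push_cast
        have h9 : (0 : ℝ) ≤ b.natAbs.factorization q := Nat.cast_nonneg _
        have h10 : (0 : ℝ) ≤ f.natAbs.factorization q := Nat.cast_nonneg _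
        linarith
    obtain ⟨Q, hQ⟩ : ∃ Q, Q = f.natAbs.primeFactors.filter (fun q : ℕ => ¬ (q : ℤ) ∣ b) := ⟨_, rfl⟩
    rw [← hQ] at h1
    have hQm : ∀ q ∈ Q, q.Prime ∧ (q : ℤ) ∣ f ∧ ¬ (q : ℤ) ∣ b := by
      intro q hq
      rw [hQ, Finset.mem_filter] at hq
      exact ⟨(hfp q hq.1).1, (hfp q hq.1).2, hq.2⟩
    have h3 : S0 / 4 ≤ ∑ q ∈ Q, (f.natAbs.factorization q : ℝ) * Real.log q := by linarith
    have h4 : ∑ q ∈ Q, Real.log q ≤ R - 1 := by
      refine hsub _ _ (fun q hq => ⟨(hQm q hq).1, Or.inr (hfd q (hQm q hq).2.1)⟩)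
        (fun q hq => ?_)
      rw [hw]
      simp only
      rw [if_neg (fun h => (hQm q hq).2.2 h.1), one_mul]
    have h5 : (Q.card : ℝ) * (1 / 2) ≤ R - 1 := by
      refine le_trans ?_ h4
      rw [← nsmul_eq_mul, ← Finset.sum_const]
      refine Finset.sum_le_sum fun q hq => ?_
      have h6 : (2 : ℝ) ≤ q := by exact_mod_cast (hQm q hq).1.two_le
      have h7 := Real.log_le_log (by norm_num) h6
      have := Real.log_two_gt_d9
      linarith
    obtain ⟨q, hq, hqS⟩ : ∃ q ∈ Q, S0 / (8 * R) ≤ (f.natAbs.factorization q : ℝ) * Real.log q := by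
      by_contra hcon
      push Not at hcon
      have h6 : ∑ q ∈ Q, (f.natAbs.factorization q : ℝ) * Real.log q ≤
          ∑ _q ∈ Q, S0 / (8 * R) := Finset.sum_le_sum fun q hq => (hcon q hq).le
      rw [Finset.sum_const, nsmul_eq_mul] at h6
      have h7 : (Q.card : ℝ) * (S0 / (8 * R)) ≤ (2 * R - 2) * (S0 / (8 * R)) :=
        mul_le_mul_of_nonneg_right (by linarith) (by positivity)
      have h8 : (2 * R - 2) * (S0 / (8 * R)) < S0 / 4 := by
        rw [mul_div_assoc', div_lt_div_iff₀ (by linarith) (by norm_num)]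
        have : 0 < S0 := by linarith
        nlinarith
      linarith
    obtain ⟨hqp, hqf, hqb⟩ := hQm q hq
    obtain ⟨T, hT⟩ : ∃ T, T = f.natAbs.factorization q := ⟨_, rfl⟩
    rw [← hT] at hqS
    have hT1 : 1 ≤ T := by
      rw [hT]
      exact hqp.factorization_pos_of_dvd (Int.natAbs_ne_zero.2 hf0) (Int.natCast_dvd.1 hqf)
    have hTf : ((q : ℤ) ^ T) ∣ f := by
      have h6 : q ^ T ∣ f.natAbs := by
        rw [hT]; exact Nat.ordProj_dvd _ _
      have h7 := Int.natCast_dvd.2 h6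
      push_cast at h7
      exact h7
    have hcop : IsCoprime ((q : ℤ) ^ T) β' := by
      apply IsCoprime.pow_left
      rw [(Nat.prime_iff_prime_int.1 hqp).coprime_iff_not_dvd]
      exact fun h => hqb (hβ'b q h)
    have hnum : ((q : ℤ) ^ T) ∣ (g0 - 1).num := by
      have e1 : g0 - 1 = (f : ℚ) / (β' : ℚ) := by
        rw [hg0, hf]
        push_cast
        field_simp
      rw [e1]
      exact rmn_numdiv q T f β' hβ'0 hTf hcop
    have hql : Real.log q ≤ R - 1 := by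
      refine le_trans ?_ h4
      apply Finset.single_le_sum (f := fun q : ℕ => Real.log q)
      · intro r _
        exact Real.log_natCast_nonneg r
      · exact hq
    have hq0 : (0 : ℝ) < q := by exact_mod_cast hqp.pos
    have hqB0 : (q : ℝ) ≤ B0 := by
      rw [hB0]
      refine le_min (hqB q ?_ hqb) ?_
      · rw [Nat.mem_primeFactors_of_ne_zero (Int.natAbs_ne_zero.2 hd0), ← Int.natCast_dvd]
        exact ⟨hqp, hfd q hqf⟩
      · rw [← Real.exp_log hq0]
        exact Real.exp_le_exp.2 (by linarith)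
    have hST : S0 ≤ 8 * R * (T * Real.log q) := by
      rw [div_le_iff₀ (by linarith)] at hqS
      linarith
    have hTl0 : 0 ≤ (T : ℝ) * Real.log q := mul_nonneg (Nat.cast_nonneg _)
      (Real.log_natCast_nonneg q)
    have h6 := hCP m p hpinj hpp e x0 y0 hx0 hy0 g0 hg0e htor' R' S R hR'1 (by linarith) hR1 hlx'
      hly' hlogR hS1 (by linarith) heS q T hqp (by
        intro j hj
        have h7 := (hsm _).1 (hpmem j)
        rw [hj] at h7
        exact hqb h7.2.1) hT1 hnum (by linarith) (by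
        rw [hS]
        have h8 : 8 * R * (T * Real.log q) ≤ 8 * R' * (T * Real.log q) :=
          mul_le_mul_of_nonneg_right (by linarith) hTl0
        linarith)
    apply hfin
    have h7 : CP * R * q * Real.exp (δ' * R') ≤ (CP + CA) * R * B0 * Real.exp (δ' * R') := by
      apply mul_le_mul_of_nonneg_right _ (Real.exp_pos _).le
      exact mul_le_mul (mul_le_mul_of_nonneg_right (by linarith) (by linarith)) hqB0 hq0.le
        (by positivity)
    calc S = 2 * S0 := hS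
      _ ≤ 2 * (8 * R * (T * Real.log q)) := by linarith
      _ ≤ 2 * (8 * R * ((CP + CA) * R * B0 * Real.exp (δ' * R'))) := by
          have : 0 ≤ 8 * R := by linarith
          have := mul_le_mul_of_nonneg_left (h6.trans h7) this
          linarith
      _ = _ := by ring

theorem st_RMN (hRTP : ST_RTP) (hRTA : ST_RTA) (_hCLA : ST_CLA) : ST_RMN := by
  intro δ hδ
  obtain ⟨C, hC, hcore⟩ := rmn_core hRTP hRTA δ hδ
  refine ⟨6 + 2 * C, by linarith, ?_⟩
  intro a b d f hd hb0 hdf hf0 R B hB hqB hR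
  -- the roots
  have hpar : ∃ β : ℤ, 2 * β = -a + f := by
    have h1 : Even (f ^ 2 - a ^ 2) := ⟨-(2 * b), by rw [← hdf, hd]; ring⟩
    have h2 : Even (-a + f) := by
      have h3 : Even ((f - a) * (f + a)) := by
        have : (f - a) * (f + a) = f ^ 2 - a ^ 2 := by ring
        rw [this]; exact h1
      rcases Int.even_mul.1 h3 with h | h
      · have : -a + f = f - a := by ring
        rw [this]; exact h
      · have : -a + f = f + a - 2 * a := by ring
        rw [this]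
        exact h.sub (even_two_mul a)
    obtain ⟨r, hr⟩ := h2
    exact ⟨r, by rw [hr]; ring⟩
  obtain ⟨β, hβ⟩ := hpar
  obtain ⟨β', hβ'⟩ : ∃ β' : ℤ, β' = β - f := ⟨_, rfl⟩
  have hsum : a = -(β + β') := by rw [hβ']; linarith
  have hbb : b = β * β' := by
    have h1 : 4 * b = 4 * (β * β') := by
      have : 4 * b = a ^ 2 - f ^ 2 := by rw [← hdf, hd]; ring
      rw [this, hsum, hβ']; ring
    linarith
  have hdd : d = (β - β') ^ 2 := by rw [hdf, hβ']; ring
  have hβ0 : β ≠ 0 := fun h => hb0 (by rw [hbb, h, zero_mul])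
  have hβ'0 : β' ≠ 0 := fun h => hb0 (by rw [hbb, h, mul_zero])
  have hne : β ≠ β' := by
    intro h
    apply hf0
    rw [hβ'] at h
    linarith
  have key : ∃ M : ℝ, 1 ≤ M ∧ |(β : ℝ)| ≤ M ∧ |(β' : ℝ)| ≤ M ∧
      Real.log M ≤ C * B * Real.exp (δ * R) := by
    rcases le_total |(β : ℝ)| |(β' : ℝ)| with h | h
    · exact ⟨|(β' : ℝ)|, by exact_mod_cast Int.one_le_abs hβ'0, h, le_rfl,
        hcore β β' b d hbb hdd hβ0 hβ'0 hne h R B hB hqB hR⟩
    · exact ⟨|(β : ℝ)|, by exact_mod_cast Int.one_le_abs hβ0, le_rfl, h,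
        hcore β' β b d (by rw [hbb]; ring) (by rw [hdd]; ring) hβ'0 hβ0 (Ne.symm hne) h R B hB
          hqB hR⟩
  obtain ⟨M, hM1, h1, h2, h3⟩ := key
  have ha : |(a : ℝ)| ≤ 2 * M := by
    rw [hsum]
    push_cast
    rw [abs_neg]
    exact (abs_add_le _ _).trans (by linarith)
  have hbM : |(b : ℝ)| ≤ M ^ 2 := by
    rw [hbb]
    push_cast
    rw [abs_mul, sq]
    exact mul_le_mul h1 h2 (abs_nonneg _) (by linarith)
  have hdM : |(d : ℝ)| ≤ 4 * M ^ 2 := by
    rw [hdd]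
    push_cast
    rw [abs_pow]
    have h4 : |(β : ℝ) - β'| ≤ 2 * M := by
      have := abs_sub_le (β : ℝ) 0 (β' : ℝ)
      simp only [sub_zero, zero_sub, abs_neg] at this
      linarith
    calc |(β : ℝ) - β'| ^ 2 ≤ (2 * M) ^ 2 := pow_le_pow_left₀ (abs_nonneg _) h4 2
      _ = _ := by ring
  have hpos : 0 < |(a : ℝ)| + |(b : ℝ)| + |(d : ℝ)| := by
    have : 0 < |(b : ℝ)| := abs_pos.2 (by exact_mod_cast hb0)
    have := abs_nonneg (a : ℝ)
    have := abs_nonneg (d : ℝ)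
    linarith
  have hle : |(a : ℝ)| + |(b : ℝ)| + |(d : ℝ)| ≤ 7 * M ^ 2 := by nlinarith
  have hlog := Real.log_le_log hpos hle
  rw [Real.log_mul (by norm_num) (by positivity), Real.log_pow] at hlog
  have h7 : Real.log 7 ≤ 6 := by
    have := Real.log_le_sub_one_of_pos (show (0 : ℝ) < 7 by norm_num)
    linarith
  have hR0 : 0 ≤ R := by
    have : 0 ≤ ∑ p ∈ (b * d).natAbs.primeFactors, (if (p : ℤ) ∣ b ∧ (p : ℤ) ∣ d then
      ((b.natAbs.factorization p : ℝ) + (d.natAbs.factorization p : ℝ)) else 1) *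
        Real.log p := by
      apply Finset.sum_nonneg
      intro p _
      refine mul_nonneg ?_ (Real.log_natCast_nonneg p)
      split_ifs
      · positivity
      · norm_num
    linarith
  have hexp1 : 1 ≤ Real.exp (δ * R) := Real.one_le_exp (by positivity)
  have hBe : 1 ≤ B * Real.exp (δ * R) := by nlinarith
  push_cast at hlog
  linarith

end Pool.Helper99.SZ
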